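import Mathlib

set_option autoImplicit false

/-!
Algebraic part: formal harmonic polynomials with prescribed exponents.
-/

namespace Pool.Agent.Lib.MP_81485b_gt

open MvPolynomial Finsupp

variable {n : ℕ}

/-- The formal Laplacian of a polynomial in `n` variables. -/
noncomputable def lap : MvPolynomial (Fin n) ℝ →ₗ[ℝ] MvPolynomial (Fin n) ℝ :=
  ∑ i, (pderiv i).toLinearMap ∘ₗ (pderiv i).toLinearMap

lemma lap_apply (p : MvPolynomial (Fin n) ℝ) : lap p = ∑ i, pderiv i (pderiv i p) := by
  simp [lap, LinearMap.sum_apply]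

lemma coeff_lap (p : MvPolynomial (Fin n) ℝ) (m : Fin n →₀ ℕ) :
    coeff m (lap p) = ∑ i, ((m i : ℝ) + 2) * ((m i : ℝ) + 1) * coeff (m + single i 2) p := by
  rw [lap_apply, coeff_sum]
  refine Finset.sum_congr rfl fun i _ => ?_
  rw [coeff_pderiv, coeff_pderiv]
  have h : m + single i 1 + single i 1 = m + single i 2 := by
    rw [add_assoc, ← single_add]
  rw [h]
  simp only [Finsupp.add_apply, single_eq_same]
  push_cast
  ring

/-- A predicate on exponents which is unchanged when an exponent is raised by two. -/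
def Inv2 (S : (Fin n →₀ ℕ) → Prop) : Prop := ∀ α i, S (α + single i 2) ↔ S α

/-- The homogeneous harmonic polynomials of degree `k` whose exponents all satisfy `S`. -/
noncomputable def V (S : (Fin n →₀ ℕ) → Prop) (k : ℕ) : Submodule ℝ (MvPolynomial (Fin n) ℝ) where
  carrier := {p | (∀ α, coeff α p ≠ 0 → α.degree = k ∧ S α) ∧ lap p = 0}
  add_mem' := by
    rintro p q ⟨hp, hp'⟩ ⟨hq, hq'⟩
    refine ⟨fun α hα => ?_, by simp [map_add, hp', hq']⟩
    by_cases h : coeff α p = 0
    · apply hq; intro h'; apply hα; simp [h, h']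
    · exact hp α h
  zero_mem' := ⟨fun α hα => by simp at hα, by simp⟩
  smul_mem' := by
    rintro c p ⟨hp, hp'⟩
    refine ⟨fun α hα => ?_, by simp [hp']⟩
    apply hp; intro h; apply hα; simp [h]

lemma mem_V {S : (Fin n →₀ ℕ) → Prop} {k : ℕ} {p : MvPolynomial (Fin n) ℝ} :
    p ∈ V S k ↔ (∀ α, coeff α p ≠ 0 → α.degree = k ∧ S α) ∧ lap p = 0 := Iff.rfl

/-- Index set for the Cauchy data. -/
abbrev Idx (S : (Fin n →₀ ℕ) → Prop) (k : ℕ) (c : Fin n) : Type :=
  {α : Fin n →₀ ℕ // α.degree = k ∧ S α ∧ α c ≤ 1}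

/-- Restriction of the coefficients to the Cauchy data. -/
noncomputable def res (S : (Fin n →₀ ℕ) → Prop) (k : ℕ) (c : Fin n) :
    V S k →ₗ[ℝ] (Idx S k c → ℝ) where
  toFun p α := coeff α.1 p.1
  map_add' p q := by ext α; simp
  map_smul' r p := by ext α; simp

lemma res_injective (S : (Fin n →₀ ℕ) → Prop) (k : ℕ) (c : Fin n) :
    Function.Injective (res S k c) := by
  rw [← LinearMap.ker_eq_bot, LinearMap.ker_eq_bot']
  rintro ⟨p, hp, hlap⟩ h
  have key : ∀ t : ℕ, ∀ α : Fin n →₀ ℕ, α c = t → coeff α p = 0 := by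
    intro t
    induction t using Nat.strong_induction_on with
    | _ t ih =>
      intro α hα
      by_cases ht : t ≤ 1
      · by_contra hne
        obtain ⟨h1, h2⟩ := hp α hne
        have := congrFun h ⟨α, h1, h2, hα ▸ ht⟩
        exact hne this
      · push Not at ht
        obtain ⟨m, hm⟩ : ∃ m : Fin n →₀ ℕ, α = m + single c 2 := by
          refine ⟨α - single c 2, ?_⟩
          rw [tsub_add_cancel_of_le]
          rw [Finsupp.single_le_iff]
          omega
        subst hm
        have h0 : coeff m (lap p) = 0 := by rw [hlap]; simp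
        rw [coeff_lap, ← Finset.add_sum_erase _ _ (Finset.mem_univ c)] at h0
        have hrest : ∑ i ∈ Finset.univ.erase c,
            ((m i : ℝ) + 2) * ((m i : ℝ) + 1) * coeff (m + single i 2) p = 0 := by
          refine Finset.sum_eq_zero fun i hi => ?_
          have hic : i ≠ c := (Finset.mem_erase.mp hi).1
          rw [ih (m c) _ (m + single i 2) _]
          · simp
          · simp only [Finsupp.add_apply, single_eq_same] at hα
            omega
          · simp [hic]
        rw [hrest, add_zero] at h0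
        have hpos : (0 : ℝ) < ((m c : ℝ) + 2) * ((m c : ℝ) + 1) := by positivity
        exact (mul_eq_zero.mp h0).resolve_left hpos.ne'
  have : p = 0 := by
    ext α
    rw [key _ α rfl]
    simp
  simp [this]

/-- The recursion producing the coefficients of a harmonic polynomial from its Cauchy data. -/
noncomputable def g (c : Fin n) (f : (Fin n →₀ ℕ) → ℝ) : ℕ → (Fin n →₀ ℕ) → ℝ
  | 0, β => f β
  | 1, β => f (β + single c 1)
  | (t + 2), β => -(1 / (((t : ℝ) + 2) * ((t : ℝ) + 1))) *
      ∑ i ∈ Finset.univ.erase c, ((β i : ℝ) + 2) * ((β i : ℝ) + 1) * g c f t (β + single i 2)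

lemma degree_add_single (β : Fin n →₀ ℕ) (i : Fin n) (t : ℕ) :
    (β + single i t).degree = β.degree + t := by
  simp [Finsupp.degree_single]

lemma g_ne_zero {S : (Fin n →₀ ℕ) → Prop} (hS : Inv2 S) {k : ℕ} (c : Fin n)
    {f : (Fin n →₀ ℕ) → ℝ} (hf : ∀ α, f α ≠ 0 → α.degree = k ∧ S α) :
    ∀ t : ℕ, ∀ β : Fin n →₀ ℕ, g c f t β ≠ 0 →
      (β + single c t).degree = k ∧ S (β + single c t) := by
  intro t
  induction t using Nat.strong_induction_on with
  | _ t ih =>
    intro β h
    match t, ih, h with
    | 0, _, h => simpa using hf β h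
    | 1, _, h => exact hf _ h
    | (t + 2), ih, h =>
      rw [g] at h
      obtain ⟨i, hi, hne⟩ : ∃ i ∈ Finset.univ.erase c,
          ((β i : ℝ) + 2) * ((β i : ℝ) + 1) * g c f t (β + single i 2) ≠ 0 := by
        by_contra hcon
        push Not at hcon
        apply h
        rw [Finset.sum_eq_zero hcon]
        simp
      have hne' : g c f t (β + single i 2) ≠ 0 := fun h0 => hne (by rw [h0]; simp)
      obtain ⟨h1, h2⟩ := ih t (by omega) _ hne'
      constructor
      · rw [degree_add_single, degree_add_single] at h1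
        rw [degree_add_single]
        omega
      · have e1 : β + single i 2 + single c t = (β + single c t) + single i 2 := by
          rw [add_right_comm]
        rw [e1, hS] at h2
        have e2 : β + single c (t + 2) = (β + single c t) + single c 2 := by
          rw [add_assoc, ← single_add]
        rw [e2, hS]
        exact h2

lemma res_surjective {S : (Fin n →₀ ℕ) → Prop} (hS : Inv2 S) (k : ℕ) (c : Fin n) :
    Function.Surjective (res S k c) := by
  classical
  intro f₀
  let f : (Fin n →₀ ℕ) → ℝ := fun α =>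
    if h : α.degree = k ∧ S α ∧ α c ≤ 1 then f₀ ⟨α, h⟩ else 0
  have hf : ∀ α, f α ≠ 0 → α.degree = k ∧ S α := by
    intro α hα
    by_cases h : α.degree = k ∧ S α ∧ α c ≤ 1
    · exact ⟨h.1, h.2.1⟩
    · exact absurd (dif_neg h) hα
  let a : (Fin n →₀ ℕ) → ℝ := fun α => g c f (α c) (α.erase c)
  have ha : ∀ α, a α ≠ 0 → α.degree = k ∧ S α := by
    intro α hα
    have := g_ne_zero hS c hf (α c) (α.erase c) hα
    rwa [Finsupp.erase_add_single] at this
  have hfin : {α : Fin n →₀ ℕ | α.degree = k}.Finite := Finsupp.finite_of_degree_eq k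
  let p : MvPolynomial (Fin n) ℝ := ∑ α ∈ hfin.toFinset, monomial α (a α)
  have hcoeff : ∀ α, coeff α p = a α := by
    intro α
    simp only [p, coeff_sum, coeff_monomial]
    rw [Finset.sum_ite_eq' hfin.toFinset α]
    split_ifs with h
    · rfl
    · by_contra hne
      exact h (by simpa using (ha α (Ne.symm hne)).1)
  have hlap : lap p = 0 := by
    ext m
    rw [coeff_lap, coeff_zero, ← Finset.add_sum_erase _ _ (Finset.mem_univ c)]
    simp only [hcoeff]
    have h1 : a (m + single c 2) = -(1 / (((m c : ℝ) + 2) * ((m c : ℝ) + 1))) *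
        ∑ i ∈ Finset.univ.erase c, ((m i : ℝ) + 2) * ((m i : ℝ) + 1) *
          g c f (m c) (m.erase c + single i 2) := by
      have e1 : (m + (single c 2 : Fin n →₀ ℕ)) c = m c + 2 := by simp
      have e2 : (m + (single c 2 : Fin n →₀ ℕ)).erase c = m.erase c := by
        ext j
        by_cases hj : j = c
        · subst hj; simp
        · simp [Finsupp.erase_ne hj, hj]
      simp only [a]
      rw [e1, e2, g]
      congr 1
      refine Finset.sum_congr rfl fun i hi => ?_
      rw [Finsupp.erase_ne (Finset.mem_erase.mp hi).1]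
    have h2 : ∀ i ∈ Finset.univ.erase c, a (m + single i 2) =
        g c f (m c) (m.erase c + single i 2) := by
      intro i hi
      have hic := (Finset.mem_erase.mp hi).1
      have e1 : (m + (single i 2 : Fin n →₀ ℕ)) c = m c := by simp [hic]
      have e2 : (m + (single i 2 : Fin n →₀ ℕ)).erase c = m.erase c + single i 2 := by
        ext j
        by_cases hj : j = c
        · subst hj; simp [hic]
        · simp [Finsupp.erase_ne hj]
      simp only [a]
      rw [e1, e2]
    have h3 : ∑ i ∈ Finset.univ.erase c, ((m i : ℝ) + 2) * ((m i : ℝ) + 1) *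
        a (m + single i 2) = ∑ i ∈ Finset.univ.erase c, ((m i : ℝ) + 2) * ((m i : ℝ) + 1) *
        g c f (m c) (m.erase c + single i 2) :=
      Finset.sum_congr rfl (fun i hi => by rw [h2 i hi])
    rw [h3, h1]
    have hpos : (0 : ℝ) < ((m c : ℝ) + 2) * ((m c : ℝ) + 1) := by positivity
    field_simp
    ring
  refine ⟨⟨p, fun α hα => ha α (by rwa [hcoeff] at hα), hlap⟩, ?_⟩
  ext ⟨α, h1, h2, h3⟩
  change coeff α p = _
  rw [hcoeff]
  have hfα : f α = f₀ ⟨α, h1, h2, h3⟩ := dif_pos ⟨h1, h2, h3⟩
  rw [← hfα]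
  have h4 : α c = 0 ∨ α c = 1 := by omega
  rcases h4 with h4 | h4
  · have : α.erase c = α := by
      ext j
      by_cases hj : j = c
      · subst hj; simp [h4]
      · simp [Finsupp.erase_ne hj]
    simp only [a]
    rw [h4, g, this]
  · have : α.erase c + single c 1 = α := by
      rw [← h4, Finsupp.erase_add_single]
    simp only [a]
    rw [h4, g, this]

/-- The space of harmonic polynomials is isomorphic to the space of Cauchy data. -/
noncomputable def equivIdx {S : (Fin n →₀ ℕ) → Prop} (hS : Inv2 S) (k : ℕ) (c : Fin n) :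
    V S k ≃ₗ[ℝ] (Idx S k c → ℝ) :=
  LinearEquiv.ofBijective (res S k c) ⟨res_injective S k c, res_surjective hS k c⟩

end Pool.Agent.Lib.MP_81485b_gt
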