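import Mathlib
import Pool.Agent.Lib.MP_81485b_gt.Alg

set_option autoImplicit false

/-!
Polynomials as functions on Euclidean space: derivatives, Laplacian, homogeneity.
-/

namespace Pool.Agent.Lib.MP_81485b_gt

open MvPolynomial Finsupp InnerProductSpace Laplacian
open scoped ContDiff

variable {n : ℕ}

/-- Evaluation of a polynomial at a point of Euclidean space. -/
noncomputable def evalE (p : MvPolynomial (Fin n) ℝ) (x : EuclideanSpace ℝ (Fin n)) : ℝ :=
  eval (fun i => x i) p

@[simp] lemma evalE_add (p q : MvPolynomial (Fin n) ℝ) (x) :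
    evalE (p + q) x = evalE p x + evalE q x := by simp [evalE]

@[simp] lemma evalE_mul (p q : MvPolynomial (Fin n) ℝ) (x) :
    evalE (p * q) x = evalE p x * evalE q x := by simp [evalE]

@[simp] lemma evalE_C (a : ℝ) (x : EuclideanSpace ℝ (Fin n)) : evalE (C a) x = a := by
  simp [evalE]

@[simp] lemma evalE_X (i : Fin n) (x : EuclideanSpace ℝ (Fin n)) : evalE (X i) x = x i := by
  simp [evalE]

@[simp] lemma evalE_zero (x : EuclideanSpace ℝ (Fin n)) : evalE 0 x = 0 := by
  simp [evalE]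

lemma contDiff_evalE (p : MvPolynomial (Fin n) ℝ) : ContDiff ℝ ω (evalE p) := by
  induction p using MvPolynomial.induction_on with
  | C a =>
    have : evalE (C a : MvPolynomial (Fin n) ℝ) = fun _ => a := by ext x; simp
    rw [this]; exact contDiff_const
  | add p q hp hq =>
    have : evalE (p + q) = fun x => evalE p x + evalE q x := by ext x; simp
    rw [this]; exact hp.add hq
  | mul_X p i hp =>
    have : evalE (p * X i) = fun x => evalE p x * x i := by ext x; simp
    rw [this]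
    refine hp.mul ?_
    exact (EuclideanSpace.proj (𝕜 := ℝ) i).contDiff

lemma hasFDerivAt_evalE (p : MvPolynomial (Fin n) ℝ) (x : EuclideanSpace ℝ (Fin n)) :
    HasFDerivAt (evalE p)
      (∑ i, evalE (pderiv i p) x • (EuclideanSpace.proj (𝕜 := ℝ) i :
        EuclideanSpace ℝ (Fin n) →L[ℝ] ℝ)) x := by
  induction p using MvPolynomial.induction_on with
  | C a =>
    have : evalE (C a : MvPolynomial (Fin n) ℝ) = fun _ => a := by ext x; simp
    rw [this]; simp only [pderiv_C, evalE_zero, zero_smul, Finset.sum_const_zero]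
    exact hasFDerivAt_const a x
  | add p q hp hq =>
    have : evalE (p + q) = fun x => evalE p x + evalE q x := by ext x; simp
    rw [this]
    have e : (∑ i, evalE (pderiv i (p + q)) x • (EuclideanSpace.proj (𝕜 := ℝ) i :
        EuclideanSpace ℝ (Fin n) →L[ℝ] ℝ)) =
        (∑ i, evalE (pderiv i p) x • (EuclideanSpace.proj (𝕜 := ℝ) i :
        EuclideanSpace ℝ (Fin n) →L[ℝ] ℝ)) +
        ∑ i, evalE (pderiv i q) x • (EuclideanSpace.proj (𝕜 := ℝ) i :
        EuclideanSpace ℝ (Fin n) →L[ℝ] ℝ) := by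
      rw [← Finset.sum_add_distrib]
      refine Finset.sum_congr rfl fun i _ => ?_
      rw [map_add, evalE_add, add_smul]
    rw [e]
    exact hp.add hq
  | mul_X p i hp =>
    have : evalE (p * X i) = fun x => evalE p x * x i := by ext x; simp
    rw [this]
    have h2 : HasFDerivAt (fun x : EuclideanSpace ℝ (Fin n) => x i)
      (EuclideanSpace.proj (𝕜 := ℝ) i : EuclideanSpace ℝ (Fin n) →L[ℝ] ℝ) x :=
      (EuclideanSpace.proj (𝕜 := ℝ) i : EuclideanSpace ℝ (Fin n) →L[ℝ] ℝ).hasFDerivAt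
    have h3 : ∀ j, evalE (pderiv j (p * X i)) x =
        x i * evalE (pderiv j p) x + if j = i then evalE p x else 0 := by
      intro j
      rw [Derivation.leibniz]
      simp only [smul_eq_mul, evalE_add, evalE_mul, evalE_X, pderiv_X, Pi.single_apply]
      split_ifs with h h' h'
      · rw [show (1 : MvPolynomial (Fin n) ℝ) = C 1 by simp, evalE_C]; ring
      · exact absurd h.symm h'
      · exact absurd h'.symm h
      · simp
    have e : (∑ j, evalE (pderiv j (p * X i)) x • (EuclideanSpace.proj (𝕜 := ℝ) j :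
        EuclideanSpace ℝ (Fin n) →L[ℝ] ℝ)) =
        evalE p x • (EuclideanSpace.proj (𝕜 := ℝ) i : EuclideanSpace ℝ (Fin n) →L[ℝ] ℝ) +
        x i • ∑ j, evalE (pderiv j p) x • (EuclideanSpace.proj (𝕜 := ℝ) j :
        EuclideanSpace ℝ (Fin n) →L[ℝ] ℝ) := by
      simp only [h3, add_smul, Finset.sum_add_distrib, ite_smul, zero_smul, Finset.sum_ite_eq',
        Finset.mem_univ, if_true, Finset.smul_sum, mul_smul]
      rw [add_comm]
    rw [e]
    exact hp.mul h2

lemma fderiv_evalE (p : MvPolynomial (Fin n) ℝ) :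
    fderiv ℝ (evalE p) = fun x => ∑ i, evalE (pderiv i p) x • (EuclideanSpace.proj (𝕜 := ℝ) i :
        EuclideanSpace ℝ (Fin n) →L[ℝ] ℝ) := by
  ext1 x
  exact (hasFDerivAt_evalE p x).fderiv

lemma fderiv_fderiv_evalE (p : MvPolynomial (Fin n) ℝ) (x v w : EuclideanSpace ℝ (Fin n)) :
    fderiv ℝ (fderiv ℝ (evalE p)) x v w =
      ∑ i, ∑ j, evalE (pderiv j (pderiv i p)) x * v j * w i := by
  rw [fderiv_evalE]
  have h : HasFDerivAt (fun x => ∑ i, evalE (pderiv i p) x • (EuclideanSpace.proj (𝕜 := ℝ) i :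
        EuclideanSpace ℝ (Fin n) →L[ℝ] ℝ))
      (∑ i, (∑ j, evalE (pderiv j (pderiv i p)) x • (EuclideanSpace.proj (𝕜 := ℝ) j :
        EuclideanSpace ℝ (Fin n) →L[ℝ] ℝ)).smulRight (EuclideanSpace.proj (𝕜 := ℝ) i :
        EuclideanSpace ℝ (Fin n) →L[ℝ] ℝ)) x := by
    refine HasFDerivAt.fun_sum fun i _ => ?_
    exact HasFDerivAt.smul_const (𝕜 := ℝ) (𝕜' := ℝ) (hasFDerivAt_evalE (pderiv i p) x)
      (EuclideanSpace.proj (𝕜 := ℝ) i : EuclideanSpace ℝ (Fin n) →L[ℝ] ℝ)
  rw [h.fderiv]
  simp only [_root_.sum_apply, ContinuousLinearMap.smulRight_apply,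
    _root_.smul_apply, smul_eq_mul, Finset.sum_mul]
  rfl

lemma laplacian_evalE (p : MvPolynomial (Fin n) ℝ) (x : EuclideanSpace ℝ (Fin n)) :
    Δ (evalE p) x = evalE (lap p) x := by
  rw [laplacian_eq_iteratedFDeriv_orthonormalBasis _ (EuclideanSpace.basisFun (Fin n) ℝ)]
  simp only [iteratedFDeriv_two_apply, Matrix.cons_val_zero, Matrix.cons_val_one,
    fderiv_fderiv_evalE]
  rw [lap_apply]
  simp only [EuclideanSpace.basisFun_apply]
  have h1 : evalE (∑ i, pderiv i (pderiv i p)) x = ∑ i, evalE (pderiv i (pderiv i p)) x := by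
    simp [evalE]
  rw [h1]
  refine Finset.sum_congr rfl fun i _ => ?_
  simp

/-- homogeneity -/
lemma evalE_smul {p : MvPolynomial (Fin n) ℝ} {k : ℕ}
    (hp : ∀ α, coeff α p ≠ 0 → α.degree = k) (t : ℝ) (x : EuclideanSpace ℝ (Fin n)) :
    evalE p (t • x) = t ^ k * evalE p x := by
  simp only [evalE, eval_eq, Finset.mul_sum]
  refine Finset.sum_congr rfl fun α hα => ?_
  have h := hp α (MvPolynomial.mem_support_iff.mp hα)
  have h2 : ∏ i ∈ α.support, (t • x) i ^ α i = t ^ k * ∏ i ∈ α.support, x i ^ α i := by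
    simp only [PiLp.smul_apply, smul_eq_mul, mul_pow, Finset.prod_mul_distrib]
    rw [Finset.prod_pow_eq_pow_sum, ← h]
    rfl
  rw [h2]; ring

lemma evalE_euler {p : MvPolynomial (Fin n) ℝ} {k : ℕ}
    (hp : ∀ α, coeff α p ≠ 0 → α.degree = k) (x : EuclideanSpace ℝ (Fin n)) :
    fderiv ℝ (evalE p) x x = k * evalE p x := by
  have h1 : HasDerivAt (fun t : ℝ => evalE p (t • x)) (fderiv ℝ (evalE p) x x) 1 := by
    have hd : HasFDerivAt (evalE p) (fderiv ℝ (evalE p) x) ((1 : ℝ) • x) := by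
      rw [one_smul]
      exact ((contDiff_evalE p).differentiable (by simp)).differentiableAt.hasFDerivAt
    have h2 : HasDerivAt (fun t : ℝ => t • x) x 1 := by
      simpa using (hasDerivAt_id (1 : ℝ)).smul_const x
    exact hd.comp_hasDerivAt 1 h2
  have h3 : HasDerivAt (fun t : ℝ => evalE p (t • x)) (k * evalE p x) 1 := by
    have : (fun t : ℝ => evalE p (t • x)) = fun t => t ^ k * evalE p x := by
      ext t; exact evalE_smul hp t x
    rw [this]
    simpa using (hasDerivAt_pow k (1 : ℝ)).mul_const (evalE p x)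
  exact h1.unique h3

/-- A homogeneous polynomial vanishing on a ball around the origin vanishes. -/
lemma eq_zero_of_evalE_ball {p : MvPolynomial (Fin n) ℝ} {k : ℕ}
    (hp : ∀ α, coeff α p ≠ 0 → α.degree = k) {R : ℝ} (hR : 0 < R)
    (h : ∀ x : EuclideanSpace ℝ (Fin n), ‖x‖ < R → evalE p x = 0) : p = 0 := by
  apply MvPolynomial.funext
  intro y
  let x : EuclideanSpace ℝ (Fin n) := WithLp.toLp 2 y
  have hx : evalE p x = 0 := by
    by_contra hne
    let t : ℝ := R / (2 * (‖x‖ + 1))
    have ht : 0 < t := by positivity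
    have h1 : ‖t • x‖ < R := by
      rw [norm_smul, Real.norm_of_nonneg ht.le]
      have : t * ‖x‖ ≤ t * (‖x‖ + 1) := by gcongr; linarith
      have h2 : t * (‖x‖ + 1) = R / 2 := by
        simp only [t]; field_simp
      linarith
    have h2 := h _ h1
    rw [evalE_smul hp] at h2
    have : t ^ k ≠ 0 := by positivity
    exact hne ((mul_eq_zero.mp h2).resolve_left this)
  simpa [evalE, x] using hx

end Pool.Agent.Lib.MP_81485b_gt
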