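import Mathlib
import Pool.Agent.Lib.MP_81485b_gt.PolyFun

set_option autoImplicit false

/-!
Maximum principle on balls and the Laplacian of the radial derivative.
-/

namespace Pool.Agent.Lib.MP_81485b_gt

open MvPolynomial InnerProductSpace Laplacian Metric Set Filter
open scoped ContDiff Topology

/-- Euclidean space. -/
abbrev Eu (n : ℕ) : Type := EuclideanSpace ℝ (Fin n)

variable {n : ℕ}

lemma hasDerivAt_line {u : Eu n → ℝ} {x e : Eu n} {t : ℝ} (h : DifferentiableAt ℝ u (x + t • e)) :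
    HasDerivAt (fun s : ℝ => u (x + s • e)) (fderiv ℝ u (x + t • e) e) t := by
  have h2 : HasDerivAt (fun s : ℝ => x + s • e) e t := by
    simpa using ((hasDerivAt_id t).smul_const e).const_add x
  exact h.hasFDerivAt.comp_hasDerivAt t h2

/-- Second derivative test at a local maximum. -/
lemma snd_deriv_nonpos_of_localMax {v : Eu n → ℝ} {z : Eu n} (hv : ContDiffAt ℝ 2 v z)
    (hmax : IsLocalMax v z) (e : Eu n) : fderiv ℝ (fderiv ℝ v) z e e ≤ 0 := by
  by_contra hcon
  push Not at hcon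
  set φ : ℝ → ℝ := fun s => v (z + s • e) with hφ
  have hlin : ContinuousAt (fun s : ℝ => z + s • e) 0 := by fun_prop
  have hlin0 : Tendsto (fun s : ℝ => z + s • e) (𝓝 0) (𝓝 z) := by
    have := hlin.tendsto
    simpa using this
  have hev : ∀ᶠ y in 𝓝 z, DifferentiableAt ℝ v y := by
    have := hv.eventually (by simp)
    filter_upwards [this] with y hy
    exact hy.differentiableAt (by simp)
  have hd : ∀ᶠ s in 𝓝 (0 : ℝ), deriv φ s = fderiv ℝ v (z + s • e) e := by
    filter_upwards [hlin0.eventually hev] with s hs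
    exact (hasDerivAt_line hs).deriv
  have h2 : HasDerivAt (fun s : ℝ => fderiv ℝ v (z + s • e) e) (fderiv ℝ (fderiv ℝ v) z e e) 0 := by
    have hG : DifferentiableAt ℝ (fderiv ℝ v) z :=
      (hv.fderiv_right (m := 1) (by norm_num)).differentiableAt (by simp)
    have hG' : HasFDerivAt (fderiv ℝ v) (fderiv ℝ (fderiv ℝ v) z) (z + (0 : ℝ) • e) := by
      simpa using hG.hasFDerivAt
    have hl : HasDerivAt (fun s : ℝ => z + s • e) e 0 := by
      simpa using ((hasDerivAt_id (0 : ℝ)).smul_const e).const_add z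
    have := hG'.comp_hasDerivAt 0 hl
    have h3 := this.clm_apply (hasDerivAt_const (0 : ℝ) e)
    simpa using h3
  have hdd : deriv (deriv φ) 0 = fderiv ℝ (fderiv ℝ v) z e e := by
    rw [Filter.EventuallyEq.deriv_eq hd]
    exact h2.deriv
  have hφmax : IsLocalMax φ 0 := by
    have : ∀ᶠ y in 𝓝 z, v y ≤ v z := hmax
    have h := hlin0.eventually this
    filter_upwards [h] with s hs
    simpa [hφ] using hs
  have hd0 : deriv φ 0 = 0 := hφmax.deriv_eq_zero
  have hc : ContinuousAt φ 0 := by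
    have : ContinuousAt v (z + (0 : ℝ) • e) := by simpa using hv.continuousAt
    exact ContinuousAt.comp this hlin
  have hmin : IsLocalMin φ 0 := isLocalMin_of_deriv_deriv_pos (by rw [hdd]; exact hcon) hd0 hc
  have hconst : ∀ᶠ s in 𝓝 (0 : ℝ), φ s = φ 0 := by
    filter_upwards [hφmax, hmin] with s h1 h2
    exact le_antisymm h1 h2
  have hconst' : φ =ᶠ[𝓝 0] fun _ => φ 0 := hconst
  have h0 : deriv φ =ᶠ[𝓝 0] fun _ => 0 := by
    have := hconst'.deriv
    simpa using this
  have : deriv (deriv φ) 0 = 0 := by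
    rw [h0.deriv_eq]; simp
  rw [hdd] at this
  linarith

lemma laplacian_eq_sum {v : Eu n → ℝ} (z : Eu n) :
    Δ v z = ∑ i, fderiv ℝ (fderiv ℝ v) z (EuclideanSpace.basisFun (Fin n) ℝ i)
      (EuclideanSpace.basisFun (Fin n) ℝ i) := by
  rw [laplacian_eq_iteratedFDeriv_orthonormalBasis _ (EuclideanSpace.basisFun (Fin n) ℝ)]
  simp only [iteratedFDeriv_two_apply, Matrix.cons_val_zero, Matrix.cons_val_one]

lemma laplacian_nonpos_of_localMax {v : Eu n → ℝ} {z : Eu n} (hv : ContDiffAt ℝ 2 v z)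
    (hmax : IsLocalMax v z) : Δ v z ≤ 0 := by
  rw [laplacian_eq_sum]
  exact Finset.sum_nonpos fun i _ => snd_deriv_nonpos_of_localMax hv hmax _

/-- The polynomial `∑ X_i ^ 2`. -/
noncomputable def qf (n : ℕ) : MvPolynomial (Fin n) ℝ := ∑ i, X i ^ 2

lemma evalE_qf (x : Eu n) : evalE (qf n) x = ‖x‖ ^ 2 := by
  rw [EuclideanSpace.norm_sq_eq]
  simp [evalE, qf]

lemma lap_qf : lap (qf n) = C (2 * (n : ℝ)) := by
  rw [lap_apply]
  have : ∀ i : Fin n, pderiv i (pderiv i (qf n)) = C 2 := by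
    intro i
    have h1 : pderiv i (qf n) = 2 * X i := by
      simp only [qf, map_sum]
      rw [Finset.sum_eq_single i]
      · simp [Derivation.leibniz_pow]
      · intro j _ hj
        simp [Derivation.leibniz_pow, pderiv_X, hj.symm]
      · simp
    rw [h1]
    have : (2 : MvPolynomial (Fin n) ℝ) = C 2 := (map_ofNat C 2).symm
    rw [this, pderiv_C_mul, pderiv_X_self]
    simp
  simp only [this, Finset.sum_const, Finset.card_univ, Fintype.card_fin, nsmul_eq_mul]
  rw [mul_comm (2 : ℝ), C_mul]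
  simp

/-- The weak maximum principle for harmonic functions on a ball. -/
lemma max_principle_le (hn : 0 < n) {R : ℝ} (hR : 0 < R) {w : Eu n → ℝ}
    (hc : ContinuousOn w (closedBall 0 R)) (hd : ∀ x ∈ ball (0 : Eu n) R, ContDiffAt ℝ 2 w x)
    (hΔ : ∀ x ∈ ball (0 : Eu n) R, Δ w x = 0) (hb : ∀ x : Eu n, ‖x‖ = R → w x ≤ 0) :
    ∀ x ∈ closedBall (0 : Eu n) R, w x ≤ 0 := by
  intro x₀ hx₀
  by_contra hcon
  push Not at hcon
  set ε : ℝ := w x₀ / (2 * (R ^ 2 + 1)) with hε
  have hεpos : 0 < ε := by positivity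
  have hεR : ε * R ^ 2 < w x₀ := by
    have h1 : ε * (2 * (R ^ 2 + 1)) = w x₀ := by
      rw [hε]; field_simp
    nlinarith [sq_nonneg R]
  set v : Eu n → ℝ := w + ε • evalE (qf n) with hv
  have hvc : ContinuousOn v (closedBall 0 R) :=
    hc.add (((contDiff_evalE (qf n)).continuous.const_smul ε).continuousOn)
  obtain ⟨z, hz, hzmax⟩ := (isCompact_closedBall (0 : Eu n) R).exists_isMaxOn ⟨x₀, hx₀⟩ hvc
  have hval : ∀ x, v x = w x + ε * ‖x‖ ^ 2 := by
    intro x; simp [hv, evalE_qf]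
  have h1 : v x₀ ≤ v z := hzmax hx₀
  have hzlt : ‖z‖ < R := by
    rcases lt_or_eq_of_le (mem_closedBall_zero_iff.mp hz) with h | h
    · exact h
    · exfalso
      have h2 := hb z h
      rw [hval, hval, h] at h1
      nlinarith [sq_nonneg ‖x₀‖]
  have hzb : z ∈ ball (0 : Eu n) R := mem_ball_zero_iff.mpr hzlt
  have hloc : IsLocalMax v z := by
    have hmem : closedBall (0 : Eu n) R ∈ 𝓝 z := closedBall_mem_nhds_of_mem hzb
    filter_upwards [hmem] with y hy
    exact hzmax hy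
  have hq2 : ContDiffAt ℝ 2 (evalE (qf n)) z := (contDiff_evalE (qf n)).contDiffAt.of_le (by simp)
  have hq3 : ContDiffAt ℝ 2 (ε • evalE (qf n)) z := hq2.const_smul ε
  have hv2 : ContDiffAt ℝ 2 v z := (hd z hzb).add hq3
  have h3 := laplacian_nonpos_of_localMax hv2 hloc
  have h4 : Δ v z = ε * (2 * n) := by
    rw [hv, ContDiffAt.laplacian_add (hd z hzb) hq3, hΔ z hzb,
      laplacian_smul ε hq2, laplacian_evalE, lap_qf, evalE_C]
    simp
  rw [h4] at h3
  have : (0 : ℝ) < n := by exact_mod_cast hn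
  have : 0 < ε * (2 * n) := by positivity
  linarith

lemma max_principle (hn : 0 < n) {R : ℝ} (hR : 0 < R) {w : Eu n → ℝ}
    (hc : ContinuousOn w (closedBall 0 R)) (hd : ∀ x ∈ ball (0 : Eu n) R, ContDiffAt ℝ 2 w x)
    (hΔ : ∀ x ∈ ball (0 : Eu n) R, Δ w x = 0) (hb : ∀ x : Eu n, ‖x‖ = R → w x = 0) :
    ∀ x ∈ closedBall (0 : Eu n) R, w x = 0 := by
  intro x hx
  apply le_antisymm
  · exact max_principle_le hn hR hc hd hΔ (fun y hy => (hb y hy).le) x hx
  · have h := max_principle_le hn hR (w := -w) hc.neg (fun y hy => (hd y hy).neg)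
      (fun y hy => by rw [laplacian_neg]; simp [hΔ y hy]) (fun y hy => by simp [hb y hy]) x hx
    simpa using h

/-- The Laplacian of the radial derivative of a harmonic function vanishes. -/
lemma laplacian_radial {u : Eu n → ℝ} {U : Set (Eu n)} (hU : IsOpen U)
    (hu : ∀ x ∈ U, ContDiffAt ℝ 3 u x) (hΔ : ∀ x ∈ U, Δ u x = 0) {x : Eu n} (hx : x ∈ U) :
    Δ (fun y => fderiv ℝ u y y) x = 0 := by
  -- first derivative
  have hd1 : ∀ y ∈ U, ContDiffAt ℝ 2 (fderiv ℝ u) y := fun y hy =>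
    (hu y hy).fderiv_right (m := 2) (by norm_num)
  have hd2 : ∀ y ∈ U, ContDiffAt ℝ 1 (fderiv ℝ (fderiv ℝ u)) y := fun y hy =>
    (hd1 y hy).fderiv_right (m := 1) (by norm_num)
  have hF1 : ∀ y ∈ U, HasFDerivAt (fderiv ℝ u) (fderiv ℝ (fderiv ℝ u) y) y := fun y hy =>
    ((hd1 y hy).differentiableAt (by simp)).hasFDerivAt
  have hF2 : ∀ y ∈ U, HasFDerivAt (fderiv ℝ (fderiv ℝ u))
      (fderiv ℝ (fderiv ℝ (fderiv ℝ u)) y) y := fun y hy =>
    ((hd2 y hy).differentiableAt (by simp)).hasFDerivAt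
  have hfd : ∀ y ∈ U, ∀ v, fderiv ℝ (fun y => fderiv ℝ u y y) y v =
      fderiv ℝ (fderiv ℝ u) y v y + fderiv ℝ u y v := by
    intro y hy v
    have h1 := (hF1 y hy).clm_apply (hasFDerivAt_id y)
    have h2 : fderiv ℝ (fun y => fderiv ℝ u y y) y = _ := h1.fderiv
    rw [h2]
    simp [add_comm]
  have hfdd : ∀ v w, fderiv ℝ (fderiv ℝ (fun y => fderiv ℝ u y y)) x v w =
      fderiv ℝ (fderiv ℝ (fderiv ℝ u)) x v w x + fderiv ℝ (fderiv ℝ u) x w v +
      fderiv ℝ (fderiv ℝ u) x v w := by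
    intro v w
    -- pass to the evaluation at `w`
    have hC2 : ContDiffAt ℝ 2 (fun y => fderiv ℝ u y y) x :=
      (hd1 x hx).clm_apply contDiffAt_id
    have hdd : HasFDerivAt (fderiv ℝ (fun y => fderiv ℝ u y y))
        (fderiv ℝ (fderiv ℝ (fun y => fderiv ℝ u y y)) x) x :=
      ((hC2.fderiv_right (m := 1) (by norm_num)).differentiableAt (by simp)).hasFDerivAt
    have h1 := hdd.clm_apply (hasFDerivAt_const w x)
    have h2 : HasFDerivAt (fun y => fderiv ℝ (fderiv ℝ u) y w y + fderiv ℝ u y w)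
        (((ContinuousLinearMap.apply ℝ ℝ x).comp
            ((ContinuousLinearMap.apply ℝ (Eu n →L[ℝ] ℝ) w).comp
              (fderiv ℝ (fderiv ℝ (fderiv ℝ u)) x)) + fderiv ℝ (fderiv ℝ u) x w) +
          (ContinuousLinearMap.apply ℝ ℝ w).comp (fderiv ℝ (fderiv ℝ u) x)) x := by
      have h3 := (hF2 x hx).clm_apply (hasFDerivAt_const w x)
      have h4 := h3.clm_apply (hasFDerivAt_id x)
      have h5 := (hF1 x hx).clm_apply (hasFDerivAt_const w x)
      have h6 := h4.add h5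
      refine h6.congr_fderiv ?_
      ext z
      simp [add_comm]
    have h3 : (fun y => fderiv ℝ (fun y => fderiv ℝ u y y) y w) =ᶠ[𝓝 x]
        (fun y => fderiv ℝ (fderiv ℝ u) y w y + fderiv ℝ u y w) := by
      filter_upwards [hU.mem_nhds hx] with y hy
      exact hfd y hy w
    have h4 := (h2.congr_of_eventuallyEq h3).unique h1
    have h5 := congrArg (fun L : Eu n →L[ℝ] ℝ => L v) h4
    simp at h5
    linarith
  -- symmetries
  have hsym1 : ∀ y ∈ U, ∀ v w, fderiv ℝ (fderiv ℝ u) y v w = fderiv ℝ (fderiv ℝ u) y w v := by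
    intro y hy v w
    exact (((hu y hy).of_le (m := 2) (by norm_num)).isSymmSndFDerivAt
      (by simp [minSmoothness_of_isRCLikeNormedField])) v w
  have hsym2 : ∀ v w, fderiv ℝ (fderiv ℝ (fderiv ℝ u)) x v w =
      fderiv ℝ (fderiv ℝ (fderiv ℝ u)) x w v := by
    intro v w
    exact ((hd1 x hx).isSymmSndFDerivAt (by simp [minSmoothness_of_isRCLikeNormedField])) v w
  have heval : ∀ v w z, HasFDerivAt (fun y => fderiv ℝ (fderiv ℝ u) y w z)
      ((ContinuousLinearMap.apply ℝ ℝ z).comp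
            ((ContinuousLinearMap.apply ℝ (Eu n →L[ℝ] ℝ) w).comp
              (fderiv ℝ (fderiv ℝ (fderiv ℝ u)) v))) v ∨ v ∉ U := by
    intro v w z
    by_cases hv : v ∈ U
    · left
      have h3 := (hF2 v hv).clm_apply (hasFDerivAt_const w v)
      have h4 := h3.clm_apply (hasFDerivAt_const z v)
      refine h4.congr_fderiv ?_
      ext y
      simp
    · right; exact hv
  have hsym3 : ∀ v w z, fderiv ℝ (fderiv ℝ (fderiv ℝ u)) x v w z =
      fderiv ℝ (fderiv ℝ (fderiv ℝ u)) x v z w := by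
    intro v w z
    have h1 := (heval x w z).resolve_right (by simpa using hx)
    have h2 := (heval x z w).resolve_right (by simpa using hx)
    have h3 : (fun y => fderiv ℝ (fderiv ℝ u) y w z) =ᶠ[𝓝 x]
        (fun y => fderiv ℝ (fderiv ℝ u) y z w) := by
      filter_upwards [hU.mem_nhds hx] with y hy
      exact hsym1 y hy w z
    have h4 := (h2.congr_of_eventuallyEq h3).unique h1
    have h5 := congrArg (fun L : Eu n →L[ℝ] ℝ => L v) h4
    simpa using h5.symm
  -- derivative of the Laplacian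
  have hlap0 : ∀ v, ∑ i, fderiv ℝ (fderiv ℝ (fderiv ℝ u)) x v
      (EuclideanSpace.basisFun (Fin n) ℝ i) (EuclideanSpace.basisFun (Fin n) ℝ i) = 0 := by
    intro v
    have h1 : HasFDerivAt (fun y => ∑ i, fderiv ℝ (fderiv ℝ u) y
        (EuclideanSpace.basisFun (Fin n) ℝ i) (EuclideanSpace.basisFun (Fin n) ℝ i))
        (∑ i, (ContinuousLinearMap.apply ℝ ℝ (EuclideanSpace.basisFun (Fin n) ℝ i)).comp
            ((ContinuousLinearMap.apply ℝ (Eu n →L[ℝ] ℝ) (EuclideanSpace.basisFun (Fin n) ℝ i)).comp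
              (fderiv ℝ (fderiv ℝ (fderiv ℝ u)) x))) x :=
      HasFDerivAt.fun_sum fun i _ => (heval x _ _).resolve_right (by simpa using hx)
    have h2 : (fun y => ∑ i, fderiv ℝ (fderiv ℝ u) y
        (EuclideanSpace.basisFun (Fin n) ℝ i) (EuclideanSpace.basisFun (Fin n) ℝ i))
        =ᶠ[𝓝 x] fun _ => 0 := by
      filter_upwards [hU.mem_nhds hx] with y hy
      rw [← laplacian_eq_sum]
      exact hΔ y hy
    have h3 := h1.unique ((hasFDerivAt_const (0 : ℝ) x).congr_of_eventuallyEq h2)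
    have h4 := congrArg (fun L : Eu n →L[ℝ] ℝ => L v) h3
    simpa [_root_.sum_apply] using h4
  rw [laplacian_eq_sum]
  simp only [hfdd, Finset.sum_add_distrib]
  have e1 : ∑ i, fderiv ℝ (fderiv ℝ (fderiv ℝ u)) x (EuclideanSpace.basisFun (Fin n) ℝ i)
      (EuclideanSpace.basisFun (Fin n) ℝ i) x = 0 := by
    rw [← hlap0 x]
    refine Finset.sum_congr rfl fun i _ => ?_
    rw [hsym3, hsym2]
  have e2 : ∑ i, fderiv ℝ (fderiv ℝ u) x (EuclideanSpace.basisFun (Fin n) ℝ i)
      (EuclideanSpace.basisFun (Fin n) ℝ i) = 0 := by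
    rw [← laplacian_eq_sum]; exact hΔ x hx
  rw [e1, e2]
  simp

end Pool.Agent.Lib.MP_81485b_gt
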