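import Mathlib
import Pool.Agent.Lib.MP_81485b_gt.Max

set_option autoImplicit false

/-!
A smooth solution of `Du(x)[x] = s * u(x)` on a ball is a homogeneous polynomial.
-/

namespace Pool.Agent.Lib.MP_81485b_gt

open MvPolynomial InnerProductSpace Laplacian Metric Set Filter
open scoped ContDiff Topology Nat

section oneD

variable {a : ℕ → ℝ → ℝ} {s : ℝ}

lemma seq_rec (h : ∀ m, ∀ t ∈ Ioo (-1 : ℝ) 1, HasDerivAt (a m) (a (m + 1) t) t)
    (h0 : ∀ t ∈ Ioo (-1 : ℝ) 1, t * a 1 t = s * a 0 t) (m : ℕ) :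
    ∀ t ∈ Ioo (-1 : ℝ) 1, t * a (m + 1) t = (s - m) * a m t := by
  induction m with
  | zero => intro t ht; simpa using h0 t ht
  | succ m ih =>
    intro t ht
    have h1 : HasDerivAt (fun t => t * a (m + 1) t) (1 * a (m + 1) t + t * a (m + 2) t) t :=
      (hasDerivAt_id t).mul (h (m + 1) t ht)
    have h2 : HasDerivAt (fun t => (s - m) * a m t) ((s - m) * a (m + 1) t) t :=
      (h m t ht).const_mul _
    have h3 : (fun t => t * a (m + 1) t) =ᶠ[𝓝 t] (fun t => (s - m) * a m t) := by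
      filter_upwards [isOpen_Ioo.mem_nhds ht] with r hr
      exact ih r hr
    have h4 := (h1.congr_of_eventuallyEq h3.symm).unique h2
    push_cast
    linarith

lemma seq_large (h : ∀ m, ∀ t ∈ Ioo (-1 : ℝ) 1, HasDerivAt (a m) (a (m + 1) t) t)
    (h0 : ∀ t ∈ Ioo (-1 : ℝ) 1, t * a 1 t = s * a 0 t) {m : ℕ} (hm : s + 1 ≤ m) :
    ∀ t ∈ Ico (0 : ℝ) 1, a m t = 0 := by
  have hrec := seq_rec h h0 m
  have hd : ∀ t ∈ Ioo (-1 : ℝ) 1, HasDerivAt (fun t => t * (a m t) ^ 2)
      ((a m t) ^ 2 * (1 + 2 * (s - m))) t := by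
    intro t ht
    have h1 : HasDerivAt (fun t => t * (a m t) ^ 2)
        (1 * (a m t) ^ 2 + t * ((2 : ℕ) * (a m t) ^ 1 * a (m + 1) t)) t :=
      (hasDerivAt_id t).mul ((h m t ht).pow 2)
    convert h1 using 1
    have := hrec t ht
    push_cast
    linear_combination (-2 * a m t) * this
  have hanti : AntitoneOn (fun t => t * (a m t) ^ 2) (Ioo (-1 : ℝ) 1) := by
    apply antitoneOn_of_deriv_nonpos (convex_Ioo _ _)
    · intro t ht
      exact (hd t ht).continuousAt.continuousWithinAt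
    · intro t ht
      rw [interior_Ioo] at ht
      exact (hd t ht).differentiableAt.differentiableWithinAt
    · intro t ht
      rw [interior_Ioo] at ht
      rw [(hd t ht).deriv]
      have : 1 + 2 * (s - m) ≤ 0 := by linarith
      exact mul_nonpos_of_nonneg_of_nonpos (sq_nonneg _) this
  intro t ht
  rcases eq_or_lt_of_le ht.1 with h' | h'
  · have h1 := hrec 0 ⟨by norm_num, by norm_num⟩
    rw [← h']
    rw [zero_mul] at h1
    have h2 : s - m ≠ 0 := by linarith
    exact (mul_eq_zero.mp h1.symm).resolve_left h2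
  · have h1 := hanti (show (0 : ℝ) ∈ Ioo (-1 : ℝ) 1 by constructor <;> norm_num)
      (show t ∈ Ioo (-1 : ℝ) 1 from ⟨by linarith, ht.2⟩) h'.le
    simp only [zero_mul] at h1
    have h2 : (a m t) ^ 2 ≤ 0 := by
      by_contra hcon
      push Not at hcon
      have := mul_pos h' hcon
      linarith
    have h3 : (a m t) ^ 2 = 0 := le_antisymm h2 (sq_nonneg _)
    exact pow_eq_zero_iff (two_ne_zero) |>.mp h3

lemma seq_down (h : ∀ m, ∀ t ∈ Ioo (-1 : ℝ) 1, HasDerivAt (a m) (a (m + 1) t) t)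
    (h0 : ∀ t ∈ Ioo (-1 : ℝ) 1, t * a 1 t = s * a 0 t) {k : ℕ}
    (hk : ∀ m : ℕ, k ≤ m → s ≠ m) :
    ∀ t ∈ Ico (0 : ℝ) 1, a k t = 0 := by
  obtain ⟨N, hN⟩ := exists_nat_ge (s + 1)
  -- work down from a large index
  have key : ∀ j : ℕ, ∀ m : ℕ, k ≤ m → m + j = max N k → ∀ t ∈ Ico (0 : ℝ) 1, a m t = 0 := by
    intro j
    induction j with
    | zero =>
      intro m _ hj
      apply seq_large h h0
      have : (N : ℝ) ≤ m := by
        exact_mod_cast (by omega : N ≤ m)
      linarith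
    | succ j ih =>
      intro m hm hj t ht
      have h1 := ih (m + 1) (by omega) (by omega) t ht
      have h2 := seq_rec h h0 m t ⟨by linarith [ht.1], ht.2⟩
      rw [h1, mul_zero] at h2
      have h3 : s - m ≠ 0 := sub_ne_zero.mpr (hk m hm)
      exact (mul_eq_zero.mp h2.symm).resolve_left h3
  exact key (max N k - k) k le_rfl (by omega)

lemma seq_formula (h : ∀ m, ∀ t ∈ Ioo (-1 : ℝ) 1, HasDerivAt (a m) (a (m + 1) t) t)
    (h0 : ∀ t ∈ Ioo (-1 : ℝ) 1, t * a 1 t = s * a 0 t) {k : ℕ} (hk : s = k) :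
    ∀ t ∈ Ico (0 : ℝ) 1, a 0 t = t ^ k / k ! * a k 0 := by
  have hz : ∀ t ∈ Ico (0 : ℝ) 1, a (k + 1) t = 0 := by
    apply seq_down h h0
    intro m hm
    rw [hk]
    intro h'
    have : k = m := by exact_mod_cast h'
    omega
  have hconst : ∀ t ∈ Ico (0 : ℝ) 1, a k t = a k 0 := by
    intro t ht
    apply constant_of_has_deriv_right_zero (a := 0) (b := t)
    · intro r hr
      exact (h k r ⟨by linarith [hr.1], by linarith [hr.2, ht.2]⟩).continuousAt.continuousWithinAt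
    · intro r hr
      have hr' : r ∈ Ico (0 : ℝ) 1 := ⟨hr.1, by linarith [hr.2, ht.2]⟩
      have := h k r ⟨by linarith [hr.1], hr'.2⟩
      rw [hz r hr'] at this
      exact this.hasDerivWithinAt
    · exact ⟨ht.1, le_rfl⟩
  have key : ∀ j : ℕ, j ≤ k → ∀ t ∈ Ico (0 : ℝ) 1, a (k - j) t = t ^ j / j ! * a k 0 := by
    intro j
    induction j with
    | zero => intro _ t ht; simpa using hconst t ht
    | succ j ih =>
      intro hj t ht
      have h1 := ih (by omega) t ht
      have h2 := seq_rec h h0 (k - (j + 1)) t ⟨by linarith [ht.1], ht.2⟩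
      have h3 : k - (j + 1) + 1 = k - j := by omega
      rw [h3, h1, hk, Nat.cast_sub hj] at h2
      push_cast at h2
      rw [Nat.factorial_succ]
      push_cast
      have hj1 : (j : ℝ) + 1 ≠ 0 := by positivity
      have hj2 : ((j ! : ℕ) : ℝ) ≠ 0 := by positivity
      field_simp at h2 ⊢
      linear_combination -h2
  intro t ht
  simpa using key k le_rfl t ht

end oneD

variable {n : ℕ}

lemma iteratedDeriv_ray {u : Eu n → ℝ} {R : ℝ}
    (hu : ∀ x ∈ ball (0 : Eu n) R, ContDiffAt ℝ ∞ u x) {x : Eu n}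
    {t : ℝ} (ht : t • x ∈ ball (0 : Eu n) R) (k : ℕ) :
    iteratedDeriv k (fun t : ℝ => u (t • x)) t = iteratedFDeriv ℝ k u (t • x) (fun _ => x) := by
  set g : ℝ →L[ℝ] Eu n := ContinuousLinearMap.toSpanSingleton ℝ x with hg
  have hopen : IsOpen (g ⁻¹' (ball (0 : Eu n) R)) := isOpen_ball.preimage g.continuous
  have h1 := g.iteratedFDerivWithin_comp_right (f := u) (s := ball (0 : Eu n) R) (n := ∞)
    (fun y hy => (hu y hy).contDiffWithinAt) isOpen_ball.uniqueDiffOn hopen.uniqueDiffOn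
    (x := t) (by simpa [hg] using ht) (i := k) (by exact_mod_cast le_top)
  rw [iteratedFDerivWithin_of_isOpen k hopen (by simpa [hg] using ht),
    iteratedFDerivWithin_of_isOpen k isOpen_ball (by simpa [hg] using ht)] at h1
  have h2 : (fun t : ℝ => u (t • x)) = u ∘ g := by
    ext t; simp [hg]
  rw [iteratedDeriv_eq_iteratedFDeriv, h2, h1]
  simp [hg]

lemma ray_seq {u : Eu n → ℝ} {R : ℝ} (hR : 0 < R)
    (hu : ∀ x ∈ ball (0 : Eu n) R, ContDiffAt ℝ ∞ u x) {x : Eu n} (hx : ‖x‖ ≤ R) (m : ℕ) :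
    ∀ t ∈ Ioo (-1 : ℝ) 1, HasDerivAt (iteratedDeriv m (fun t : ℝ => u (t • x)))
      (iteratedDeriv (m + 1) (fun t : ℝ => u (t • x)) t) t := by
  intro t ht
  have htx : t • x ∈ ball (0 : Eu n) R := by
    rw [mem_ball_zero_iff, norm_smul, Real.norm_eq_abs]
    have h1 : |t| < 1 := abs_lt.mpr ht
    rcases eq_or_lt_of_le (norm_nonneg x) with h | h
    · rw [← h]; simpa using hR
    · calc |t| * ‖x‖ < 1 * ‖x‖ := by gcongr
        _ ≤ R := by linarith
  have hc : ContDiffAt ℝ ∞ (fun t : ℝ => u (t • x)) t := by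
    have h1 : ContDiffAt ℝ ∞ (fun t : ℝ => t • x) t := by fun_prop
    exact (hu _ htx).comp t h1
  rw [iteratedDeriv_succ]
  apply DifferentiableAt.hasDerivAt
  have h2 : ContDiffAt ℝ 1 (iteratedDeriv m (fun t : ℝ => u (t • x))) t := by
    have h3 : ContDiffAt ℝ 1 (iteratedFDeriv ℝ m (fun t : ℝ => u (t • x))) t :=
      hc.iteratedFDeriv_right (i := m) (m := 1) (by exact_mod_cast le_top)
    rw [iteratedDeriv_eq_equiv_comp]
    exact (LinearIsometryEquiv.contDiff _).contDiffAt.comp t h3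
  exact h2.differentiableAt (by simp)

/-- The radial restriction satisfies Euler's equation. -/
lemma ray_euler {u : Eu n → ℝ} {R s : ℝ} (hR : 0 < R)
    (hu : ∀ x ∈ ball (0 : Eu n) R, ContDiffAt ℝ ∞ u x)
    (heq : ∀ x ∈ ball (0 : Eu n) R, fderiv ℝ u x x = s * u x) {x : Eu n} (hx : ‖x‖ ≤ R) :
    ∀ t ∈ Ioo (-1 : ℝ) 1, t * iteratedDeriv 1 (fun t : ℝ => u (t • x)) t =
      s * iteratedDeriv 0 (fun t : ℝ => u (t • x)) t := by
  intro t ht
  have htx : t • x ∈ ball (0 : Eu n) R := by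
    rw [mem_ball_zero_iff, norm_smul, Real.norm_eq_abs]
    have h1 : |t| < 1 := abs_lt.mpr ht
    rcases eq_or_lt_of_le (norm_nonneg x) with h | h
    · rw [← h]; simpa using hR
    · calc |t| * ‖x‖ < 1 * ‖x‖ := by gcongr
        _ ≤ R := by linarith
  have h1 : HasDerivAt (fun t : ℝ => u (t • x)) (fderiv ℝ u (t • x) x) t := by
    have h2 : HasDerivAt (fun s : ℝ => s • x) x t := by
      simpa using (hasDerivAt_id t).smul_const x
    exact ((hu _ htx).differentiableAt (by simp)).hasFDerivAt.comp_hasDerivAt t h2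
  rw [iteratedDeriv_one, iteratedDeriv_zero, h1.deriv, ← heq _ htx, map_smul, smul_eq_mul]

lemma eq_lim {u : Eu n → ℝ} {R : ℝ} (hc : ContinuousOn u (closedBall 0 R))
    {x : Eu n} (hx : ‖x‖ ≤ R) {c : ℝ} {k : ℕ}
    (h : ∀ t ∈ Ico (0 : ℝ) 1, u (t • x) = t ^ k * c) : u x = c := by
  have hmaps : ∀ t ∈ Icc (0 : ℝ) 1, t • x ∈ closedBall (0 : Eu n) R := by
    intro t ht
    rw [mem_closedBall_zero_iff, norm_smul, Real.norm_of_nonneg ht.1]
    calc t * ‖x‖ ≤ 1 * ‖x‖ := by gcongr; exact ht.2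
      _ ≤ R := by linarith
  have hcont : ContinuousOn (fun t : ℝ => u (t • x)) (Icc 0 1) :=
    hc.comp (by fun_prop) hmaps
  have h1 : Tendsto (fun t : ℝ => u (t • x)) (𝓝[<] 1) (𝓝 (u x)) := by
    have := hcont 1 (by simp)
    have h2 : Tendsto (fun t : ℝ => u (t • x)) (𝓝[Icc 0 1] 1) (𝓝 (u ((1 : ℝ) • x))) := this
    rw [one_smul] at h2
    apply h2.mono_left
    rw [← nhdsWithin_Ico_eq_nhdsLT (show (0 : ℝ) < 1 by norm_num)]
    exact nhdsWithin_mono _ Ico_subset_Icc_self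
  have h2 : Tendsto (fun t : ℝ => t ^ k * c) (𝓝[<] 1) (𝓝 c) := by
    have : Continuous fun t : ℝ => t ^ k * c := by fun_prop
    have := this.tendsto 1
    simp only [one_pow, one_mul] at this
    exact this.mono_left nhdsWithin_le_nhds
  have h3 : (fun t : ℝ => u (t • x)) =ᶠ[𝓝[<] 1] (fun t : ℝ => t ^ k * c) := by
    rw [← nhdsWithin_Ico_eq_nhdsLT (show (0 : ℝ) < 1 by norm_num)]
    filter_upwards [self_mem_nhdsWithin] with t ht
    exact h t ht
  exact tendsto_nhds_unique (h1.congr' h3) h2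

/-- If `s` is not a natural number then the solution vanishes. -/
lemma eq_zero_of_not_nat {u : Eu n → ℝ} {R s : ℝ} (hR : 0 < R)
    (hc : ContinuousOn u (closedBall 0 R))
    (hu : ∀ x ∈ ball (0 : Eu n) R, ContDiffAt ℝ ∞ u x)
    (heq : ∀ x ∈ ball (0 : Eu n) R, fderiv ℝ u x x = s * u x)
    (hs : ∀ m : ℕ, s ≠ m) : ∀ x ∈ closedBall (0 : Eu n) R, u x = 0 := by
  intro x hx
  have hx' : ‖x‖ ≤ R := mem_closedBall_zero_iff.mp hx
  apply eq_lim hc hx' (k := 0)
  intro t ht
  have := seq_down (a := fun m => iteratedDeriv m (fun t : ℝ => u (t • x)))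
    (fun m => ray_seq hR hu hx' m) (ray_euler hR hu heq hx') (k := 0) (fun m _ => hs m) t ht
  simpa using this

/-- The polynomial attached to a `k`-linear form. -/
noncomputable def polyOf {k : ℕ} (M : ContinuousMultilinearMap ℝ (fun _ : Fin k => Eu n) ℝ) :
    MvPolynomial (Fin n) ℝ :=
  ∑ r : Fin k → Fin n, C (M fun j => EuclideanSpace.basisFun (Fin n) ℝ (r j)) * ∏ j, X (r j)

lemma evalE_polyOf {k : ℕ} (M : ContinuousMultilinearMap ℝ (fun _ : Fin k => Eu n) ℝ) (x : Eu n) :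
    evalE (polyOf M) x = M fun _ => x := by
  have hx : x = ∑ i, x i • EuclideanSpace.basisFun (Fin n) ℝ i := by
    have := (EuclideanSpace.basisFun (Fin n) ℝ).sum_repr x
    conv_lhs => rw [← this]
    simp
  have h1 : M (fun _ => x) = M fun _ => ∑ i, x i • EuclideanSpace.basisFun (Fin n) ℝ i := by
    rw [← hx]
  rw [h1]
  have h2 := M.toMultilinearMap.map_sum
    (g := fun (_ : Fin k) (i : Fin n) => x i • EuclideanSpace.basisFun (Fin n) ℝ i)
  have h3 : (M fun _ => ∑ i, x i • EuclideanSpace.basisFun (Fin n) ℝ i) =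
    ∑ r : Fin k → Fin n, M fun j => x (r j) • EuclideanSpace.basisFun (Fin n) ℝ (r j) := h2
  rw [h3]
  simp only [evalE, polyOf, map_sum, map_mul, eval_C, map_prod, eval_X]
  refine Finset.sum_congr rfl fun r _ => ?_
  have h4 := M.toMultilinearMap.map_smul_univ (fun j => x (r j))
    (fun j => EuclideanSpace.basisFun (Fin n) ℝ (r j))
  have h5 : (M fun j => x (r j) • EuclideanSpace.basisFun (Fin n) ℝ (r j)) =
    (∏ j, x (r j)) • M fun j => EuclideanSpace.basisFun (Fin n) ℝ (r j) := h4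
  rw [h5, smul_eq_mul, mul_comm]

lemma degree_polyOf {k : ℕ} (M : ContinuousMultilinearMap ℝ (fun _ : Fin k => Eu n) ℝ) :
    ∀ α, coeff α (polyOf M) ≠ 0 → α.degree = k := by
  have h : (polyOf M).IsHomogeneous k := by
    apply MvPolynomial.IsHomogeneous.sum
    intro r _
    have h1 : (C (M fun j => EuclideanSpace.basisFun (Fin n) ℝ (r j)) :
      MvPolynomial (Fin n) ℝ).IsHomogeneous 0 := isHomogeneous_C _ _
    have h2 : (∏ j : Fin k, (X (r j) : MvPolynomial (Fin n) ℝ)).IsHomogeneous k := by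
      have := MvPolynomial.IsHomogeneous.prod (Finset.univ : Finset (Fin k))
        (fun j => (X (r j) : MvPolynomial (Fin n) ℝ)) (fun _ => 1)
        (fun j _ => isHomogeneous_X ℝ (r j))
      simpa using this
    simpa using h1.mul h2
  intro α hα
  have := h hα
  rw [Finsupp.degree_eq_weight_one]
  exact this

/-- If `s = k` is a natural number then the solution is a homogeneous polynomial. -/
lemma exists_poly {u : Eu n → ℝ} {R s : ℝ} (hR : 0 < R)
    (hc : ContinuousOn u (closedBall 0 R))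
    (hu : ∀ x ∈ ball (0 : Eu n) R, ContDiffAt ℝ ∞ u x)
    (heq : ∀ x ∈ ball (0 : Eu n) R, fderiv ℝ u x x = s * u x)
    {k : ℕ} (hs : s = k) : ∃ p : MvPolynomial (Fin n) ℝ, (∀ α, coeff α p ≠ 0 → α.degree = k) ∧
      ∀ x ∈ closedBall (0 : Eu n) R, u x = evalE p x := by
  refine ⟨polyOf ((1 / (k ! : ℝ)) • iteratedFDeriv ℝ k u 0), degree_polyOf _, ?_⟩
  intro x hx
  have hx' : ‖x‖ ≤ R := mem_closedBall_zero_iff.mp hx
  apply eq_lim hc hx' (k := k)
  intro t ht
  have h1 := seq_formula (a := fun m => iteratedDeriv m (fun t : ℝ => u (t • x)))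
    (fun m => ray_seq hR hu hx' m) (ray_euler hR hu heq hx') hs t ht
  simp only [iteratedDeriv_zero] at h1
  rw [h1, evalE_polyOf]
  have h2 : (0 : ℝ) • x ∈ ball (0 : Eu n) R := by simpa using hR
  rw [iteratedDeriv_ray hu h2 k]
  simp only [zero_smul, _root_.smul_apply, smul_eq_mul]
  ring

end Pool.Agent.Lib.MP_81485b_gt
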